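import Mathlib

/-!
# A regular ordered set containing an N all of whose minimal cutsets are antichains

This answers a question of Higgs (1985) in the negative.

The ordered set `Pt` consists of a least element `bot`, a greatest element `top`, a lower part
`z i d`, an upper part `v j e` (with `i d j e : ℕ`) and, for every index `a = (i, f, j, g)` with
`f g : ℚ ↪ ℕ`, a middle chain `c a x`, where `x` runs over the lower sets of `ℚ` ordered by
inclusion.

* Upper part: `v i d < v j e` iff `i < j` and `i + d ≤ j + e`.  Every level `i` is an infinite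
  antichain, every point has infinitely many upper covers but only finitely many points below it
  in this part, and every infinite ascending chain is cofinal.
* Lower part: the dual of the upper part.
* `z j e < c a x` iff `a.i < j`, or `a.i = j` and `e = a.f q` for some `q ∈ x`.
* `c a x < v j e` iff `a.j < j`, or `a.j = j` and `e = a.g q` for some `q ∉ x`.
* Points of different middle chains are incomparable, and every `z` is below every `v`.

So `z a.i (a.f q)` is covered by the cut `c a (Iic q)`, while the cut `c a (Iio q)` is covered by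
`v a.j (a.g q)`.  If `K` is a minimal cutset containing neither `bot` nor `top`, then infinitely
many points of some level of the lower part are reachable from below avoiding `K`, and infinitely
many points of some level of the upper part are reachable from above avoiding `K`.  For a
suitable index `a` all entrances `Iic q` and all exits `Iio q` of the middle chain with index `a`
are then reachable, so `K` meets every segment `[Iic p, Iio q]`, `p < q`, of that chain; but a
maximal chain meeting `K` in exactly one point of the middle chain contains such a segment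
avoiding that point, a contradiction.
-/

namespace Pool.Agent.Results.MP_3b1797_co.HiggsCounterexample

/-- A cutset of `P` is a subset meeting every maximal chain of `P`. -/
def IsCutset {P : Type*} [PartialOrder P] (K : Set P) : Prop :=
  ∀ C : Set P, IsMaxChain (· ≤ ·) C → (K ∩ C).Nonempty

/-- A minimal cutset: removing any one of its elements destroys the cutset property. -/
def IsMinimalCutset {P : Type*} [PartialOrder P] (K : Set P) : Prop :=
  IsCutset K ∧ ∀ x ∈ K, ¬ IsCutset (K \ {x})

/-- `P` is regular: every nonempty chain `C` has a supremum `s` and an infimum `i` in `P`;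
`x < s` implies `x < c` for some `c ∈ C`, and `i < x` implies `c < x` for some `c ∈ C`. -/
def IsRegularOrder (P : Type*) [PartialOrder P] : Prop :=
  ∀ C : Set P, C.Nonempty → IsChain (· ≤ ·) C →
    (∃ s, IsLUB C s ∧ ∀ x, x < s → ∃ c ∈ C, x < c) ∧
    (∃ i, IsGLB C i ∧ ∀ x, i < x → ∃ c ∈ C, c < x)

/-- `P` contains an N: there are `a b c d` with `a < c`, `b < c`, `b < d`, `c` covers `b`, and no
other comparabilities among them (in particular the four elements are distinct). -/
def ContainsN (P : Type*) [PartialOrder P] : Prop :=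
  ∃ a b c d : P, a < c ∧ b ⋖ c ∧ b < d ∧
    (¬ a ≤ b ∧ ¬ b ≤ a) ∧ (¬ a ≤ d ∧ ¬ d ≤ a) ∧ (¬ c ≤ d ∧ ¬ d ≤ c)

/-- Index of a middle chain. -/
structure Ix where
  /-- the level of the lower part from which the chain is entered -/
  i : ℕ
  /-- the point of the lower part below the cut `Iic q` -/
  f : ℚ ↪ ℕ
  /-- the level of the upper part to which the chain exits -/
  j : ℕ
  /-- the point of the upper part above the cut `Iio q` -/
  g : ℚ ↪ ℕ

/-- The points of the ordered set. -/
inductive Pt : Type
  | bot : Pt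
  | z : ℕ → ℕ → Pt
  | c : Ix → LowerSet ℚ → Pt
  | v : ℕ → ℕ → Pt
  | top : Pt

namespace Pt

/-- The order relation. -/
def le : Pt → Pt → Prop
  | bot, _ => True
  | z _ _, bot => False
  | z i d, z j e => (i = j ∧ d = e) ∨ (j < i ∧ j + e ≤ i + d)
  | z j e, c a x => a.i < j ∨ (a.i = j ∧ ∃ q ∈ x, a.f q = e)
  | z _ _, v _ _ => True
  | z _ _, top => True
  | c _ _, bot => False
  | c _ _, z _ _ => False
  | c a x, c b y => a = b ∧ x ≤ y
  | c a x, v j e => a.j < j ∨ (a.j = j ∧ ∃ q, q ∉ x ∧ a.g q = e)
  | c _ _, top => True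
  | v _ _, bot => False
  | v _ _, z _ _ => False
  | v _ _, c _ _ => False
  | v i d, v j e => (i = j ∧ d = e) ∨ (i < j ∧ i + d ≤ j + e)
  | v _ _, top => True
  | top, bot => False
  | top, z _ _ => False
  | top, c _ _ => False
  | top, v _ _ => False
  | top, top => True

theorem le_rfl' (a : Pt) : le a a := by
  cases a <;> simp [le]

theorem le_trans' (a b c : Pt) (h1 : le a b) (h2 : le b c) : le a c := by
  cases a with
  | bot => cases c <;> trivial
  | top => cases b <;> first | exact h1.elim | exact h2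
  | z i d =>
    cases b with
    | bot => exact h1.elim
    | z j e =>
      cases c with
      | bot => exact h2.elim
      | z k r => simp only [le] at *; omega
      | c a x =>
        simp only [le] at *
        rcases h1 with ⟨rfl, rfl⟩ | ⟨h1, h1'⟩
        · exact h2
        · left
          rcases h2 with h2 | ⟨h2, -⟩ <;> omega
      | v k r => trivial
      | top => trivial
    | c a x =>
      cases c with
      | bot => exact h2.elim
      | z k r => exact h2.elim
      | c b y =>
        simp only [le] at *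
        obtain ⟨rfl, hxy⟩ := h2
        rcases h1 with h1 | ⟨h1, q, hq, hq'⟩
        · exact Or.inl h1
        · exact Or.inr ⟨h1, q, hxy hq, hq'⟩
      | v k r => trivial
      | top => trivial
    | v j e => cases c <;> first | exact h2.elim | trivial
    | top => cases c <;> first | exact h2.elim | trivial
  | c a x =>
    cases b with
    | bot => exact h1.elim
    | z j e => exact h1.elim
    | c b y =>
      cases c with
      | bot => exact h2.elim
      | z k r => exact h2.elim
      | c b y =>
        simp only [le] at *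
        obtain ⟨rfl, hxy⟩ := h2
        obtain ⟨rfl, hxy'⟩ := h1
        exact ⟨rfl, hxy'.trans hxy⟩
      | v k r =>
        simp only [le] at *
        obtain ⟨rfl, hxy'⟩ := h1
        rcases h2 with h2 | ⟨h2, q, hq, hq'⟩
        · exact Or.inl h2
        · exact Or.inr ⟨h2, q, fun h => hq (hxy' h), hq'⟩
      | top => trivial
    | v j e =>
      cases c with
      | bot => exact h2.elim
      | z k r => exact h2.elim
      | c b y => exact h2.elim
      | v k r =>
        simp only [le] at *
        rcases h2 with ⟨rfl, rfl⟩ | ⟨h2, h2'⟩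
        · exact h1
        · left
          rcases h1 with h1 | ⟨h1, -⟩ <;> omega
      | top => trivial
    | top => cases c <;> first | exact h2.elim | trivial
  | v i d =>
    cases b with
    | bot => exact h1.elim
    | z j e => exact h1.elim
    | c b y => exact h1.elim
    | v j e =>
      cases c with
      | bot => exact h2.elim
      | z k r => exact h2.elim
      | c b y => exact h2.elim
      | v k r => simp only [le] at *; omega
      | top => trivial
    | top => cases c <;> first | exact h2.elim | trivial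

theorem le_antisymm' (a b : Pt) (h1 : le a b) (h2 : le b a) : a = b := by
  cases a with
  | bot => cases b <;> first | rfl | exact h2.elim
  | top => cases b <;> first | rfl | exact h1.elim
  | z i d =>
    cases b with
    | z j e =>
      simp only [le] at *
      have h3 : i = j ∧ d = e := by omega
      rw [h3.1, h3.2]
    | bot => exact h1.elim
    | c b y => exact h2.elim
    | v j e => exact h2.elim
    | top => exact h2.elim
  | c a x =>
    cases b with
    | c b y =>
      simp only [le] at *
      obtain ⟨rfl, hxy⟩ := h1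
      rw [_root_.le_antisymm hxy h2.2]
    | bot => exact h1.elim
    | z j e => exact h1.elim
    | v j e => exact h2.elim
    | top => exact h2.elim
  | v i d =>
    cases b with
    | v j e =>
      simp only [le] at *
      have h3 : i = j ∧ d = e := by omega
      rw [h3.1, h3.2]
    | bot => exact h1.elim
    | z j e => exact h1.elim
    | c b y => exact h1.elim
    | top => exact h2.elim

instance : PartialOrder Pt where
  le := le
  le_refl := le_rfl'
  le_trans := le_trans'
  le_antisymm := le_antisymm'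

instance : OrderBot Pt where
  bot := bot
  bot_le := fun a => by cases a <;> trivial

instance : OrderTop Pt where
  top := top
  le_top := fun a => by cases a <;> trivial

/-! simp lemmas for the order -/

theorem bot_le' (a : Pt) : bot ≤ a := by cases a <;> trivial
theorem le_top' (a : Pt) : a ≤ top := by cases a <;> trivial

theorem z_le_z {i d j e : ℕ} : z i d ≤ z j e ↔ (i = j ∧ d = e) ∨ (j < i ∧ j + e ≤ i + d) := Iff.rfl
theorem v_le_v {i d j e : ℕ} : v i d ≤ v j e ↔ (i = j ∧ d = e) ∨ (i < j ∧ i + d ≤ j + e) := Iff.rfl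
theorem z_le_c {j e : ℕ} {a : Ix} {x : LowerSet ℚ} :
    z j e ≤ c a x ↔ a.i < j ∨ (a.i = j ∧ ∃ q ∈ x, a.f q = e) := Iff.rfl
theorem c_le_v {j e : ℕ} {a : Ix} {x : LowerSet ℚ} :
    c a x ≤ v j e ↔ a.j < j ∨ (a.j = j ∧ ∃ q, q ∉ x ∧ a.g q = e) := Iff.rfl
theorem c_le_c {a b : Ix} {x y : LowerSet ℚ} : c a x ≤ c b y ↔ a = b ∧ x ≤ y := Iff.rfl
theorem z_le_v {i d j e : ℕ} : z i d ≤ v j e := trivial
theorem not_c_le_z {j e : ℕ} {a : Ix} {x : LowerSet ℚ} : ¬ c a x ≤ z j e := fun h => h
theorem not_v_le_c {j e : ℕ} {a : Ix} {x : LowerSet ℚ} : ¬ v j e ≤ c a x := fun h => h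
theorem not_v_le_z {i d j e : ℕ} : ¬ v j e ≤ z i d := fun h => h
theorem not_z_le_bot {i d : ℕ} : ¬ z i d ≤ bot := fun h => h
theorem not_v_le_bot {i d : ℕ} : ¬ v i d ≤ bot := fun h => h
theorem not_c_le_bot {a : Ix} {x : LowerSet ℚ} : ¬ c a x ≤ bot := fun h => h
theorem not_top_le_z {i d : ℕ} : ¬ top ≤ z i d := fun h => h
theorem not_top_le_v {i d : ℕ} : ¬ top ≤ v i d := fun h => h
theorem not_top_le_c {a : Ix} {x : LowerSet ℚ} : ¬ top ≤ c a x := fun h => h
theorem not_top_le_bot : ¬ top ≤ bot := fun h => h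

theorem c_lt_c {a b : Ix} {x y : LowerSet ℚ} : c a x < c b y ↔ a = b ∧ x < y := by
  rw [lt_iff_le_not_ge, lt_iff_le_not_ge, c_le_c, c_le_c]
  constructor
  · rintro ⟨⟨rfl, h⟩, h2⟩
    exact ⟨rfl, h, fun h3 => h2 ⟨rfl, h3⟩⟩
  · rintro ⟨rfl, h, h2⟩
    exact ⟨⟨rfl, h⟩, fun h3 => h2 h3.2⟩

theorem z_lt_c {j e : ℕ} {a : Ix} {x : LowerSet ℚ} : z j e < c a x ↔ z j e ≤ c a x :=
  ⟨le_of_lt, fun h => lt_of_le_not_ge h not_c_le_z⟩
theorem c_lt_v {j e : ℕ} {a : Ix} {x : LowerSet ℚ} : c a x < v j e ↔ c a x ≤ v j e :=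
  ⟨le_of_lt, fun h => lt_of_le_not_ge h not_v_le_c⟩

/-! ### Regularity -/

theorem sup_part (C : Set Pt) (hne : C.Nonempty) (hC : IsChain (· ≤ ·) C) :
    ∃ s, IsLUB C s ∧ ∀ x, x < s → ∃ y ∈ C, x < y := by
  by_cases hmax : ∃ m ∈ C, ∀ y ∈ C, y ≤ m
  · obtain ⟨m, hm, hm'⟩ := hmax
    exact ⟨m, ⟨fun y hy => hm' y hy, fun y hy => hy hm⟩, fun x hx => ⟨m, hm, hx⟩⟩
  · push Not at hmax
    have hnext : ∀ m ∈ C, ∃ y ∈ C, m < y := by
      intro m hm
      obtain ⟨y, hy, hym⟩ := hmax m hm
      refine ⟨y, hy, lt_of_le_not_ge ((hC.total hm hy).resolve_right hym) hym⟩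
    have htop : top ∉ C := fun h => by
      obtain ⟨y, _, hy⟩ := hnext _ h
      exact absurd (le_top' y) (not_le_of_gt hy)
    by_cases hV : ∃ j e, v j e ∈ C
    · -- the supremum is `top`
      have hunb : ∀ n : ℕ, ∃ j e, v j e ∈ C ∧ n ≤ j := by
        intro n
        induction n with
        | zero => obtain ⟨j, e, h⟩ := hV; exact ⟨j, e, h, Nat.zero_le _⟩
        | succ n ih =>
          obtain ⟨j, e, h, hn⟩ := ih
          obtain ⟨y, hy, hlt⟩ := hnext _ h
          cases y with
          | bot => exact absurd (le_of_lt hlt) not_v_le_bot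
          | z k r => exact absurd (le_of_lt hlt) not_v_le_z
          | c a x => exact absurd (le_of_lt hlt) not_v_le_c
          | v k r =>
            refine ⟨k, r, hy, ?_⟩
            have h1 := v_le_v.1 (le_of_lt hlt)
            rcases h1 with ⟨rfl, rfl⟩ | ⟨h1, -⟩
            · exact absurd hlt (lt_irrefl _)
            · omega
          | top => exact absurd hy htop
      refine ⟨top, ⟨fun y _ => le_top' y, ?_⟩, ?_⟩
      · intro y hy
        cases y with
        | bot => obtain ⟨j, e, h⟩ := hV; exact absurd (hy h) not_v_le_bot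
        | z k r => obtain ⟨j, e, h⟩ := hV; exact absurd (hy h) not_v_le_z
        | c a x => obtain ⟨j, e, h⟩ := hV; exact absurd (hy h) not_v_le_c
        | v k r =>
          obtain ⟨j, e, h, hj⟩ := hunb (k + 1)
          have := v_le_v.1 (hy h)
          omega
        | top => exact le_rfl
      · intro x hx
        cases x with
        | bot =>
          obtain ⟨j, e, h⟩ := hV
          exact ⟨_, h, lt_of_le_not_ge (bot_le' _) not_v_le_bot⟩
        | z k r =>
          obtain ⟨j, e, h⟩ := hV
          exact ⟨_, h, lt_of_le_not_ge z_le_v not_v_le_z⟩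
        | c a x =>
          obtain ⟨j, e, h, hj⟩ := hunb (a.j + 1)
          exact ⟨_, h, c_lt_v.2 (c_le_v.2 (Or.inl hj))⟩
        | v k r =>
          obtain ⟨j, e, h, hj⟩ := hunb (k + r + 1)
          refine ⟨_, h, lt_of_le_not_ge (v_le_v.2 (Or.inr ⟨by omega, by omega⟩)) ?_⟩
          rw [v_le_v]; omega
        | top => exact absurd hx (lt_irrefl _)
    · by_cases hc : ∃ a x, c a x ∈ C
      · obtain ⟨a, x₀, hx₀⟩ := hc
        have hsame : ∀ b y, c b y ∈ C → b = a := by
          intro b y hy
          rcases hC.total hy hx₀ with h | h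
          · exact (c_le_c.1 h).1
          · exact (c_le_c.1 h).1.symm
        set S : Set (LowerSet ℚ) := {x | c a x ∈ C} with hS
        refine ⟨c a (sSup S), ⟨?_, ?_⟩, ?_⟩
        · intro y hy
          cases y with
          | bot => exact bot_le' _
          | z k r =>
            have h1 : z k r ≤ c a x₀ := (hC.total hy hx₀).resolve_right not_c_le_z
            exact h1.trans (c_le_c.2 ⟨rfl, le_sSup hx₀⟩)
          | c b y =>
            obtain rfl := hsame b y hy
            exact c_le_c.2 ⟨rfl, le_sSup hy⟩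
          | v k r => exact absurd ⟨k, r, hy⟩ hV
          | top => exact absurd hy htop
        · intro y hy
          cases y with
          | bot => exact absurd (hy hx₀) not_c_le_bot
          | z k r => exact absurd (hy hx₀) not_c_le_z
          | c b w =>
            have h1 := c_le_c.1 (hy hx₀)
            obtain ⟨rfl, h1⟩ := h1
            refine c_le_c.2 ⟨rfl, sSup_le ?_⟩
            intro x hx
            exact (c_le_c.1 (hy hx)).2
          | v k r =>
            rw [c_le_v]
            rcases c_le_v.1 (hy hx₀) with h1 | ⟨h1, q₀, hq₀, hq₀'⟩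
            · exact Or.inl h1
            · refine Or.inr ⟨h1, q₀, ?_, hq₀'⟩
              rw [LowerSet.mem_sSup_iff]
              rintro ⟨x, hx, hqx⟩
              rcases c_le_v.1 (hy hx) with h2 | ⟨h2, q, hq, hq'⟩
              · omega
              · have : q = q₀ := a.g.injective (hq'.trans hq₀'.symm)
                exact hq (this ▸ hqx)
          | top => exact le_top' _
        · intro x hx
          cases x with
          | bot => exact ⟨_, hx₀, lt_of_le_not_ge (bot_le' _) not_c_le_bot⟩
          | z k r =>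
            rcases z_le_c.1 (z_lt_c.1 hx) with h1 | ⟨h1, q, hq, hq'⟩
            · exact ⟨_, hx₀, z_lt_c.2 (z_le_c.2 (Or.inl h1))⟩
            · obtain ⟨x, hx, hqx⟩ := LowerSet.mem_sSup_iff.1 hq
              exact ⟨_, hx, z_lt_c.2 (z_le_c.2 (Or.inr ⟨h1, q, hqx, hq'⟩))⟩
          | c b w =>
            obtain ⟨rfl, h1⟩ := c_lt_c.1 hx
            obtain ⟨x, hx, h2⟩ := lt_sSup_iff.1 h1
            exact ⟨_, hx, c_lt_c.2 ⟨rfl, h2⟩⟩
          | v k r => exact absurd (le_of_lt hx) not_v_le_c
          | top => exact absurd (le_of_lt hx) not_top_le_c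
      · exfalso
        by_cases hz : ∃ i d, z i d ∈ C
        · classical
          have hex : ∃ i, ∃ d, z i d ∈ C := hz
          obtain ⟨d, hd⟩ := Nat.find_spec hex
          have hmin := fun m (hm : m < Nat.find hex) => Nat.find_min hex hm
          obtain ⟨y, hy, hlt⟩ := hnext _ hd
          cases y with
          | bot => exact not_z_le_bot (le_of_lt hlt)
          | z k r =>
            rcases z_le_z.1 (le_of_lt hlt) with ⟨h1, h2⟩ | ⟨h1, -⟩
            · rw [h1, h2] at hlt; exact lt_irrefl _ hlt
            · exact hmin k h1 ⟨r, hy⟩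
          | c a x => exact hc ⟨a, x, hy⟩
          | v k r => exact hV ⟨k, r, hy⟩
          | top => exact htop hy
        · obtain ⟨m, hm⟩ := hne
          obtain ⟨y, hy, hlt⟩ := hnext _ hm
          cases y with
          | bot => exact absurd (bot_le' m) (not_le_of_gt hlt)
          | z k r => exact hz ⟨k, r, hy⟩
          | c a x => exact hc ⟨a, x, hy⟩
          | v k r => exact hV ⟨k, r, hy⟩
          | top => exact htop hy

theorem inf_part (C : Set Pt) (hne : C.Nonempty) (hC : IsChain (· ≤ ·) C) :
    ∃ s, IsGLB C s ∧ ∀ x, s < x → ∃ y ∈ C, y < x := by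
  by_cases hmin : ∃ m ∈ C, ∀ y ∈ C, m ≤ y
  · obtain ⟨m, hm, hm'⟩ := hmin
    exact ⟨m, ⟨fun y hy => hm' y hy, fun y hy => hy hm⟩, fun x hx => ⟨m, hm, hx⟩⟩
  · push Not at hmin
    have hnext : ∀ m ∈ C, ∃ y ∈ C, y < m := by
      intro m hm
      obtain ⟨y, hy, hym⟩ := hmin m hm
      refine ⟨y, hy, lt_of_le_not_ge ((hC.total hm hy).resolve_left hym) hym⟩
    have hbot : bot ∉ C := fun h => by
      obtain ⟨y, _, hy⟩ := hnext _ h
      exact absurd (bot_le' y) (not_le_of_gt hy)
    by_cases hZ : ∃ j e, z j e ∈ C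
    · -- the infimum is `bot`
      have hunb : ∀ n : ℕ, ∃ j e, z j e ∈ C ∧ n ≤ j := by
        intro n
        induction n with
        | zero => obtain ⟨j, e, h⟩ := hZ; exact ⟨j, e, h, Nat.zero_le _⟩
        | succ n ih =>
          obtain ⟨j, e, h, hn⟩ := ih
          obtain ⟨y, hy, hlt⟩ := hnext _ h
          cases y with
          | top => exact absurd (le_of_lt hlt) not_top_le_z
          | v k r => exact absurd (le_of_lt hlt) not_v_le_z
          | c a x => exact absurd (le_of_lt hlt) not_c_le_z
          | z k r =>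
            refine ⟨k, r, hy, ?_⟩
            have h1 := z_le_z.1 (le_of_lt hlt)
            rcases h1 with ⟨rfl, rfl⟩ | ⟨h1, -⟩
            · exact absurd hlt (lt_irrefl _)
            · omega
          | bot => exact absurd hy hbot
      refine ⟨bot, ⟨fun y _ => bot_le' y, ?_⟩, ?_⟩
      · intro y hy
        cases y with
        | top => obtain ⟨j, e, h⟩ := hZ; exact absurd (hy h) not_top_le_z
        | v k r => obtain ⟨j, e, h⟩ := hZ; exact absurd (hy h) not_v_le_z
        | c a x => obtain ⟨j, e, h⟩ := hZ; exact absurd (hy h) not_c_le_z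
        | z k r =>
          obtain ⟨j, e, h, hj⟩ := hunb (k + 1)
          have := z_le_z.1 (hy h)
          omega
        | bot => exact le_rfl
      · intro x hx
        cases x with
        | top =>
          obtain ⟨j, e, h⟩ := hZ
          exact ⟨_, h, lt_of_le_not_ge (le_top' _) not_top_le_z⟩
        | v k r =>
          obtain ⟨j, e, h⟩ := hZ
          exact ⟨_, h, lt_of_le_not_ge z_le_v not_v_le_z⟩
        | c a x =>
          obtain ⟨j, e, h, hj⟩ := hunb (a.i + 1)
          exact ⟨_, h, z_lt_c.2 (z_le_c.2 (Or.inl hj))⟩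
        | z k r =>
          obtain ⟨j, e, h, hj⟩ := hunb (k + r + 1)
          refine ⟨_, h, lt_of_le_not_ge (z_le_z.2 (Or.inr ⟨by omega, by omega⟩)) ?_⟩
          rw [z_le_z]; omega
        | bot => exact absurd hx (lt_irrefl _)
    · by_cases hc : ∃ a x, c a x ∈ C
      · obtain ⟨a, x₀, hx₀⟩ := hc
        have hsame : ∀ b y, c b y ∈ C → b = a := by
          intro b y hy
          rcases hC.total hy hx₀ with h | h
          · exact (c_le_c.1 h).1
          · exact (c_le_c.1 h).1.symm
        set S : Set (LowerSet ℚ) := {x | c a x ∈ C} with hS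
        refine ⟨c a (sInf S), ⟨?_, ?_⟩, ?_⟩
        · intro y hy
          cases y with
          | top => exact le_top' _
          | v k r =>
            have h1 : c a x₀ ≤ v k r := (hC.total hy hx₀).resolve_left not_v_le_c
            exact (c_le_c.2 ⟨rfl, sInf_le hx₀⟩ : c a (sInf S) ≤ c a x₀).trans h1
          | c b y =>
            obtain rfl := hsame b y hy
            exact c_le_c.2 ⟨rfl, sInf_le hy⟩
          | z k r => exact absurd ⟨k, r, hy⟩ hZ
          | bot => exact absurd hy hbot
        · intro y hy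
          cases y with
          | top => exact absurd (hy hx₀) not_top_le_c
          | v k r => exact absurd (hy hx₀) not_v_le_c
          | c b w =>
            have h1 := c_le_c.1 (hy hx₀)
            obtain ⟨rfl, h1⟩ := h1
            refine c_le_c.2 ⟨rfl, le_sInf ?_⟩
            intro x hx
            exact (c_le_c.1 (hy hx)).2
          | z k r =>
            rw [z_le_c]
            rcases z_le_c.1 (hy hx₀) with h1 | ⟨h1, q₀, hq₀, hq₀'⟩
            · exact Or.inl h1
            · refine Or.inr ⟨h1, q₀, ?_, hq₀'⟩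
              rw [LowerSet.mem_sInf_iff]
              intro x hx
              rcases z_le_c.1 (hy hx) with h2 | ⟨h2, q, hq, hq'⟩
              · omega
              · have : q = q₀ := a.f.injective (hq'.trans hq₀'.symm)
                exact this ▸ hq
          | bot => exact bot_le' _
        · intro x hx
          cases x with
          | top => exact ⟨_, hx₀, lt_of_le_not_ge (le_top' _) not_top_le_c⟩
          | v k r =>
            rcases c_le_v.1 (c_lt_v.1 hx) with h1 | ⟨h1, q, hq, hq'⟩
            · exact ⟨_, hx₀, c_lt_v.2 (c_le_v.2 (Or.inl h1))⟩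
            · rw [LowerSet.mem_sInf_iff] at hq
              push Not at hq
              obtain ⟨x, hx, hqx⟩ := hq
              exact ⟨_, hx, c_lt_v.2 (c_le_v.2 (Or.inr ⟨h1, q, hqx, hq'⟩))⟩
          | c b w =>
            obtain ⟨rfl, h1⟩ := c_lt_c.1 hx
            obtain ⟨x, hx, h2⟩ := sInf_lt_iff.1 h1
            exact ⟨_, hx, c_lt_c.2 ⟨rfl, h2⟩⟩
          | z k r => exact absurd (le_of_lt hx) not_c_le_z
          | bot => exact absurd (le_of_lt hx) not_c_le_bot
      · exfalso
        by_cases hv : ∃ i d, v i d ∈ C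
        · classical
          have hex : ∃ i, ∃ d, v i d ∈ C := hv
          obtain ⟨d, hd⟩ := Nat.find_spec hex
          have hmin := fun m (hm : m < Nat.find hex) => Nat.find_min hex hm
          obtain ⟨y, hy, hlt⟩ := hnext _ hd
          cases y with
          | top => exact not_top_le_v (le_of_lt hlt)
          | v k r =>
            rcases v_le_v.1 (le_of_lt hlt) with ⟨h1, h2⟩ | ⟨h1, -⟩
            · rw [h1, h2] at hlt; exact lt_irrefl _ hlt
            · exact hmin k h1 ⟨r, hy⟩
          | c a x => exact hc ⟨a, x, hy⟩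
          | z k r => exact hZ ⟨k, r, hy⟩
          | bot => exact hbot hy
        · obtain ⟨m, hm⟩ := hne
          obtain ⟨y, hy, hlt⟩ := hnext _ hm
          cases y with
          | top => exact absurd (le_top' m) (not_le_of_gt hlt)
          | v k r => exact hv ⟨k, r, hy⟩
          | c a x => exact hc ⟨a, x, hy⟩
          | z k r => exact hZ ⟨k, r, hy⟩
          | bot => exact hbot hy

theorem regular : IsRegularOrder Pt := fun C hne hC => ⟨sup_part C hne hC, inf_part C hne hC⟩


/-! ### Maximal chains -/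

section general
variable {P : Type*} [PartialOrder P]

theorem mem_of_comparable {M : Set P} (hM : IsMaxChain (· ≤ ·) M) {y : P}
    (h : ∀ w ∈ M, y ≤ w ∨ w ≤ y) : y ∈ M := by
  have h1 : IsChain (· ≤ ·) (insert y M) := hM.1.insert fun w hw _ => h w hw
  rw [hM.2 h1 (Set.subset_insert _ _)]
  exact Set.mem_insert _ _

theorem isMaxChain_of {M : Set P} (hM : IsChain (· ≤ ·) M)
    (h : ∀ y, (∀ w ∈ M, y ≤ w ∨ w ≤ y) → y ∈ M) : IsMaxChain (· ≤ ·) M := by
  refine ⟨hM, fun t ht hMt => Set.Subset.antisymm hMt fun y hy => h y fun w hw => ?_⟩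
  exact ht.total hy (hMt hw)

end general

/-- `y` is reachable from above avoiding `K`. -/
def InF (K : Set Pt) (y : Pt) : Prop :=
  ∃ M, IsMaxChain (· ≤ ·) M ∧ y ∈ M ∧ ∀ w ∈ M, y ≤ w → w ∉ K

/-- `y` is reachable from below avoiding `K`. -/
def InI (K : Set Pt) (y : Pt) : Prop :=
  ∃ M, IsMaxChain (· ≤ ·) M ∧ y ∈ M ∧ ∀ w ∈ M, w ≤ y → w ∉ K

theorem v_succ {M : Set Pt} (hM : IsMaxChain (· ≤ ·) M) {i d : ℕ} (h : v i d ∈ M) :
    ∃ e, v (i + 1) e ∈ M ∧ v i d ≤ v (i + 1) e := by
  classical
  have hex : ∃ j, i < j ∧ ∃ e, v j e ∈ M := by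
    by_contra hno
    push Not at hno
    refine hno (i + 1) (by omega) d (mem_of_comparable hM fun w hw => ?_)
    rcases hM.1.total hw h with h1 | h1
    · exact Or.inr (h1.trans (v_le_v.2 (Or.inr ⟨by omega, by omega⟩)))
    · cases w with
      | bot => exact absurd h1 not_v_le_bot
      | z k r => exact absurd h1 not_v_le_z
      | c a x => exact absurd h1 not_v_le_c
      | v k r =>
        rcases v_le_v.1 h1 with ⟨rfl, rfl⟩ | ⟨h2, -⟩
        · exact Or.inr (v_le_v.2 (Or.inr ⟨by omega, by omega⟩))
        · exact absurd hw (hno k h2 r)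
      | top => exact Or.inl (le_top' _)
  obtain ⟨hj, e, he⟩ := Nat.find_spec hex
  set j := Nat.find hex with hjdef
  have hmin : ∀ m, i < m → m < j → ∀ e, v m e ∉ M := by
    intro m him hmj e hme
    exact Nat.find_min hex hmj ⟨him, e, hme⟩
  have hle : v i d ≤ v j e := by
    rcases hM.1.total h he with h1 | h1
    · exact h1
    · have := v_le_v.1 h1
      omega
  by_cases hj2 : j = i + 1
  · rw [hj2] at he hle
    exact ⟨e, he, hle⟩
  · exfalso
    refine hmin (j - 1) (by omega) (by omega) (e + 1) (mem_of_comparable hM fun w hw => ?_)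
    have hle' := v_le_v.1 hle
    rcases hM.1.total hw h with h1 | h1
    · exact Or.inr (h1.trans (v_le_v.2 (Or.inr ⟨by omega, by omega⟩)))
    · rcases hM.1.total hw he with h2 | h2
      · cases w with
        | bot => exact absurd h1 not_v_le_bot
        | z k r => exact absurd h1 not_v_le_z
        | c a x => exact absurd h1 not_v_le_c
        | v k r =>
          rcases v_le_v.1 h1 with ⟨rfl, rfl⟩ | ⟨h3, -⟩
          · exact Or.inr (v_le_v.2 (Or.inr ⟨by omega, by omega⟩))
          · rcases v_le_v.1 h2 with ⟨rfl, rfl⟩ | ⟨h4, -⟩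
            · exact Or.inl (v_le_v.2 (Or.inr ⟨by omega, by omega⟩))
            · exact absurd hw (hmin k h3 h4 r)
        | top => exact absurd h2 not_top_le_v
      · refine Or.inl (_root_.le_trans (v_le_v.2 (Or.inr ⟨by omega, by omega⟩)) h2)

theorem z_succ {M : Set Pt} (hM : IsMaxChain (· ≤ ·) M) {i d : ℕ} (h : z i d ∈ M) :
    ∃ e, z (i + 1) e ∈ M ∧ z (i + 1) e ≤ z i d := by
  classical
  have hex : ∃ j, i < j ∧ ∃ e, z j e ∈ M := by
    by_contra hno
    push Not at hno
    refine hno (i + 1) (by omega) d (mem_of_comparable hM fun w hw => ?_)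
    rcases hM.1.total h hw with h1 | h1
    · exact Or.inl (_root_.le_trans (z_le_z.2 (Or.inr ⟨by omega, by omega⟩)) h1)
    · cases w with
      | top => exact absurd h1 not_top_le_z
      | v k r => exact absurd h1 not_v_le_z
      | c a x => exact absurd h1 not_c_le_z
      | z k r =>
        rcases z_le_z.1 h1 with ⟨rfl, rfl⟩ | ⟨h2, -⟩
        · exact Or.inl (z_le_z.2 (Or.inr ⟨by omega, by omega⟩))
        · exact absurd hw (hno k h2 r)
      | bot => exact Or.inr (bot_le' _)
  obtain ⟨hj, e, he⟩ := Nat.find_spec hex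
  set j := Nat.find hex with hjdef
  have hmin : ∀ m, i < m → m < j → ∀ e, z m e ∉ M := by
    intro m him hmj e hme
    exact Nat.find_min hex hmj ⟨him, e, hme⟩
  have hle : z j e ≤ z i d := by
    rcases hM.1.total he h with h1 | h1
    · exact h1
    · have := z_le_z.1 h1
      omega
  by_cases hj2 : j = i + 1
  · rw [hj2] at he hle
    exact ⟨e, he, hle⟩
  · exfalso
    refine hmin (j - 1) (by omega) (by omega) (e + 1) (mem_of_comparable hM fun w hw => ?_)
    have hle' := z_le_z.1 hle
    rcases hM.1.total h hw with h1 | h1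
    · exact Or.inl (_root_.le_trans (z_le_z.2 (Or.inr ⟨by omega, by omega⟩)) h1)
    · rcases hM.1.total he hw with h2 | h2
      · cases w with
        | top => exact absurd h1 not_top_le_z
        | v k r => exact absurd h1 not_v_le_z
        | c a x => exact absurd h1 not_c_le_z
        | z k r =>
          rcases z_le_z.1 h1 with ⟨rfl, rfl⟩ | ⟨h3, -⟩
          · exact Or.inl (z_le_z.2 (Or.inr ⟨by omega, by omega⟩))
          · rcases z_le_z.1 h2 with ⟨rfl, rfl⟩ | ⟨h4, -⟩
            · exact Or.inr (z_le_z.2 (Or.inr ⟨by omega, by omega⟩))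
            · exact absurd hw (hmin k h3 h4 r)
        | bot => exact absurd h2 not_z_le_bot
      · refine Or.inr (_root_.le_trans h2 (z_le_z.2 (Or.inr ⟨by omega, by omega⟩)))

/-- Some level of the upper part contains infinitely many points of `F`. -/
theorem exists_level_F {K : Set Pt}
    (hK : ∀ x ∈ K, ∃ M, IsMaxChain (· ≤ ·) M ∧ x ∈ M ∧ ∀ w ∈ M, w ∈ K → w = x)
    (htop : top ∉ K) : ∃ i, {d | InF K (v i d)}.Infinite := by
  by_contra hfin
  push Not at hfin
  have hB : ∀ i, ∃ B, ∀ d, InF K (v i d) → d ≤ B := by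
    intro i
    obtain ⟨B, hB⟩ := (hfin i).bddAbove
    exact ⟨B, fun d hd => hB hd⟩
  choose B hB using hB
  have hKB : ∀ i d, v i d ∈ K → d ≤ B (i + 1) + 1 := by
    intro i d hd
    obtain ⟨M, hM, hdM, hMK⟩ := hK _ hd
    obtain ⟨e, heM, hle⟩ := v_succ hM hdM
    have h1 : InF K (v (i + 1) e) := by
      refine ⟨M, hM, heM, fun w hw hew hwK => ?_⟩
      have h2 := hMK w hw hwK
      rw [h2] at hew
      have := v_le_v.1 hew
      omega
    have h2 := hB _ _ h1
    have h3 := v_le_v.1 hle
    omega
  -- the path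
  let D : ℕ → ℕ := fun i => (∑ k ∈ Finset.range (i + 2), B k) + 2
  have hD1 : ∀ i, B i + 2 ≤ D i := by
    intro i
    have : B i ≤ ∑ k ∈ Finset.range (i + 2), B k :=
      Finset.single_le_sum (f := B) (fun _ _ => Nat.zero_le _) (Finset.mem_range.2 (by omega))
    simp only [D]; omega
  have hD2 : ∀ i, B (i + 1) + 2 ≤ D i := by
    intro i
    have : B (i + 1) ≤ ∑ k ∈ Finset.range (i + 2), B k :=
      Finset.single_le_sum (f := B) (fun _ _ => Nat.zero_le _) (Finset.mem_range.2 (by omega))
    simp only [D]; omega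
  have hD3 : Monotone D := by
    refine monotone_nat_of_le_succ fun i => ?_
    simp only [D]
    rw [Finset.sum_range_succ (n := i + 2)]
    omega
  have hDK : ∀ i, v i (D i) ∉ K := by
    intro i h
    have h1 := hKB _ _ h
    have h2 := hD2 i
    omega
  have hDle : ∀ i j, i ≤ j → v i (D i) ≤ v j (D j) := by
    intro i j hij
    rcases Nat.eq_or_lt_of_le hij with rfl | h
    · exact le_rfl
    · have := hD3 hij
      exact v_le_v.2 (Or.inr ⟨h, by omega⟩)
  -- the maximal chain
  obtain ⟨M₀, hM₀, hM₀'⟩ := (IsChain.singleton (r := (· ≤ ·)) (a := v 0 (D 0))).exists_maxChain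
  have hv0 : v 0 (D 0) ∈ M₀ := hM₀' rfl
  have hF : InF K (v 0 (D 0)) := by
    refine ⟨{w | w ∈ M₀ ∧ w ≤ v 0 (D 0)} ∪ ({w | ∃ i, w = v i (D i)} ∪ {top}), ?_, ?_, ?_⟩
    · refine isMaxChain_of ?_ ?_
      · rintro w hw w' hw' -
        rcases hw with ⟨hw, hw1⟩ | ⟨i, rfl⟩ | rfl
        · rcases hw' with ⟨hw', hw1'⟩ | ⟨i, rfl⟩ | rfl
          · exact hM₀.1.total hw hw'
          · exact Or.inl (hw1.trans (hDle 0 i (Nat.zero_le _)))
          · exact Or.inl (le_top' _)
        · rcases hw' with ⟨hw', hw1'⟩ | ⟨j, rfl⟩ | rfl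
          · exact Or.inr (hw1'.trans (hDle 0 i (Nat.zero_le _)))
          · rcases le_total i j with h | h
            · exact Or.inl (hDle _ _ h)
            · exact Or.inr (hDle _ _ h)
          · exact Or.inl (le_top' _)
        · exact Or.inr (le_top' _)
      · intro y hy
        rcases hy (v 0 (D 0)) (Or.inr (Or.inl ⟨0, rfl⟩)) with h | h
        · left
          refine ⟨mem_of_comparable hM₀ fun w hw => ?_, h⟩
          rcases hM₀.1.total hw hv0 with h1 | h1
          · exact hy w (Or.inl ⟨hw, h1⟩)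
          · exact Or.inl (h.trans h1)
        · cases y with
          | bot => exact absurd h not_v_le_bot
          | z k r => exact absurd h not_v_le_z
          | c a x => exact absurd h not_v_le_c
          | v k r =>
            right; left
            refine ⟨k, ?_⟩
            rcases hy (v k (D k)) (Or.inr (Or.inl ⟨k, rfl⟩)) with h1 | h1
            · rcases v_le_v.1 h1 with ⟨-, h2⟩ | ⟨h2, -⟩
              · rw [h2]
              · omega
            · rcases v_le_v.1 h1 with ⟨-, h2⟩ | ⟨h2, -⟩
              · rw [h2]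
              · omega
          | top => exact Or.inr (Or.inr rfl)
    · exact Or.inr (Or.inl ⟨0, rfl⟩)
    · rintro w hw hle
      rcases hw with ⟨hw, hw1⟩ | ⟨i, rfl⟩ | rfl
      · have := _root_.le_antisymm hw1 hle
        rw [this]; exact hDK 0
      · exact hDK i
      · exact htop
  have h1 := hB 0 _ hF
  have h2 := hD1 0
  omega

/-- Some level of the lower part contains infinitely many points of `I`. -/
theorem exists_level_I {K : Set Pt}
    (hK : ∀ x ∈ K, ∃ M, IsMaxChain (· ≤ ·) M ∧ x ∈ M ∧ ∀ w ∈ M, w ∈ K → w = x)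
    (hbot : bot ∉ K) : ∃ i, {d | InI K (z i d)}.Infinite := by
  by_contra hfin
  push Not at hfin
  have hB : ∀ i, ∃ B, ∀ d, InI K (z i d) → d ≤ B := by
    intro i
    obtain ⟨B, hB⟩ := (hfin i).bddAbove
    exact ⟨B, fun d hd => hB hd⟩
  choose B hB using hB
  have hKB : ∀ i d, z i d ∈ K → d ≤ B (i + 1) + 1 := by
    intro i d hd
    obtain ⟨M, hM, hdM, hMK⟩ := hK _ hd
    obtain ⟨e, heM, hle⟩ := z_succ hM hdM
    have h1 : InI K (z (i + 1) e) := by
      refine ⟨M, hM, heM, fun w hw hew hwK => ?_⟩
      have h2 := hMK w hw hwK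
      rw [h2] at hew
      have := z_le_z.1 hew
      omega
    have h2 := hB _ _ h1
    have h3 := z_le_z.1 hle
    omega
  -- the path
  let D : ℕ → ℕ := fun i => (∑ k ∈ Finset.range (i + 2), B k) + 2
  have hD1 : ∀ i, B i + 2 ≤ D i := by
    intro i
    have : B i ≤ ∑ k ∈ Finset.range (i + 2), B k :=
      Finset.single_le_sum (f := B) (fun _ _ => Nat.zero_le _) (Finset.mem_range.2 (by omega))
    simp only [D]; omega
  have hD2 : ∀ i, B (i + 1) + 2 ≤ D i := by
    intro i
    have : B (i + 1) ≤ ∑ k ∈ Finset.range (i + 2), B k :=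
      Finset.single_le_sum (f := B) (fun _ _ => Nat.zero_le _) (Finset.mem_range.2 (by omega))
    simp only [D]; omega
  have hD3 : Monotone D := by
    refine monotone_nat_of_le_succ fun i => ?_
    simp only [D]
    rw [Finset.sum_range_succ (n := i + 2)]
    omega
  have hDK : ∀ i, z i (D i) ∉ K := by
    intro i h
    have h1 := hKB _ _ h
    have h2 := hD2 i
    omega
  have hDle : ∀ i j, i ≤ j → z j (D j) ≤ z i (D i) := by
    intro i j hij
    rcases Nat.eq_or_lt_of_le hij with rfl | h
    · exact le_rfl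
    · have := hD3 hij
      exact z_le_z.2 (Or.inr ⟨h, by omega⟩)
  -- the maximal chain
  obtain ⟨M₀, hM₀, hM₀'⟩ := (IsChain.singleton (r := (· ≤ ·)) (a := z 0 (D 0))).exists_maxChain
  have hv0 : z 0 (D 0) ∈ M₀ := hM₀' rfl
  have hF : InI K (z 0 (D 0)) := by
    refine ⟨{w | w ∈ M₀ ∧ z 0 (D 0) ≤ w} ∪ ({w | ∃ i, w = z i (D i)} ∪ {bot}), ?_, ?_, ?_⟩
    · refine isMaxChain_of ?_ ?_
      · rintro w hw w' hw' -
        rcases hw with ⟨hw, hw1⟩ | ⟨i, rfl⟩ | rfl
        · rcases hw' with ⟨hw', hw1'⟩ | ⟨i, rfl⟩ | rfl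
          · exact hM₀.1.total hw hw'
          · exact Or.inr (_root_.le_trans (hDle 0 i (Nat.zero_le _)) hw1)
          · exact Or.inr (bot_le' _)
        · rcases hw' with ⟨hw', hw1'⟩ | ⟨j, rfl⟩ | rfl
          · exact Or.inl (_root_.le_trans (hDle 0 i (Nat.zero_le _)) hw1')
          · rcases le_total i j with h | h
            · exact Or.inr (hDle _ _ h)
            · exact Or.inl (hDle _ _ h)
          · exact Or.inr (bot_le' _)
        · exact Or.inl (bot_le' _)
      · intro y hy
        rcases hy (z 0 (D 0)) (Or.inr (Or.inl ⟨0, rfl⟩)) with h | h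
        · cases y with
          | top => exact absurd h not_top_le_z
          | v k r => exact absurd h not_v_le_z
          | c a x => exact absurd h not_c_le_z
          | z k r =>
            right; left
            refine ⟨k, ?_⟩
            rcases hy (z k (D k)) (Or.inr (Or.inl ⟨k, rfl⟩)) with h1 | h1
            · rcases z_le_z.1 h1 with ⟨-, h2⟩ | ⟨h2, -⟩
              · rw [h2]
              · omega
            · rcases z_le_z.1 h1 with ⟨-, h2⟩ | ⟨h2, -⟩
              · rw [h2]
              · omega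
          | bot => exact Or.inr (Or.inr rfl)
        · left
          refine ⟨mem_of_comparable hM₀ fun w hw => ?_, h⟩
          rcases hM₀.1.total hv0 hw with h1 | h1
          · exact hy w (Or.inl ⟨hw, h1⟩)
          · exact Or.inr (h1.trans h)
    · exact Or.inr (Or.inl ⟨0, rfl⟩)
    · rintro w hw hle
      rcases hw with ⟨hw, hw1⟩ | ⟨i, rfl⟩ | rfl
      · have := _root_.le_antisymm hle hw1
        rw [this]; exact hDK 0
      · exact hDK i
      · exact hbot
  have h1 := hB 0 _ hF
  have h2 := hD1 0
  omega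

/-- Every segment of a middle chain between an entrance reachable from below and an exit
reachable from above is hit by the cutset. -/
theorem segment_hit {K : Set Pt} (hK : IsCutset K) {a : Ix} {q₁ q₂ : ℚ} (hq : q₁ < q₂)
    (h1 : InI K (z a.i (a.f q₁))) (h2 : InF K (v a.j (a.g q₂))) :
    ∃ x : LowerSet ℚ, LowerSet.Iic q₁ ≤ x ∧ x ≤ LowerSet.Iio q₂ ∧ c a x ∈ K := by
  obtain ⟨M₁, hM₁, hz, hI⟩ := h1
  obtain ⟨M₂, hM₂, hv, hF⟩ := h2
  have hmax : IsMaxChain (· ≤ ·) ({w | w ∈ M₁ ∧ w ≤ z a.i (a.f q₁)} ∪
      ({w | ∃ x : LowerSet ℚ, LowerSet.Iic q₁ ≤ x ∧ x ≤ LowerSet.Iio q₂ ∧ w = c a x} ∪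
        {w | w ∈ M₂ ∧ v a.j (a.g q₂) ≤ w})) := by
    have hzc : ∀ x : LowerSet ℚ, LowerSet.Iic q₁ ≤ x → z a.i (a.f q₁) ≤ c a x := by
      intro x hx
      exact z_le_c.2 (Or.inr ⟨rfl, q₁, hx (by simp), rfl⟩)
    have hcv : ∀ x : LowerSet ℚ, x ≤ LowerSet.Iio q₂ → c a x ≤ v a.j (a.g q₂) := by
      intro x hx
      refine c_le_v.2 (Or.inr ⟨rfl, q₂, fun h => ?_, rfl⟩)
      have := hx h
      simp at this
    refine isMaxChain_of ?_ ?_
    · rintro w hw w' hw' -
      rcases hw with ⟨hw, hw1⟩ | ⟨x, hx1, hx2, rfl⟩ | ⟨hw, hw1⟩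
      · rcases hw' with ⟨hw', hw1'⟩ | ⟨y, hy1, hy2, rfl⟩ | ⟨hw', hw1'⟩
        · exact hM₁.1.total hw hw'
        · exact Or.inl (hw1.trans (hzc y hy1))
        · exact Or.inl (hw1.trans (_root_.le_trans z_le_v hw1'))
      · rcases hw' with ⟨hw', hw1'⟩ | ⟨y, hy1, hy2, rfl⟩ | ⟨hw', hw1'⟩
        · exact Or.inr (hw1'.trans (hzc x hx1))
        · rcases le_total x y with h | h
          · exact Or.inl (c_le_c.2 ⟨rfl, h⟩)
          · exact Or.inr (c_le_c.2 ⟨rfl, h⟩)
        · exact Or.inl ((hcv x hx2).trans hw1')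
      · rcases hw' with ⟨hw', hw1'⟩ | ⟨y, hy1, hy2, rfl⟩ | ⟨hw', hw1'⟩
        · exact Or.inr (hw1'.trans (_root_.le_trans z_le_v hw1))
        · exact Or.inr ((hcv y hy2).trans hw1)
        · exact hM₂.1.total hw hw'
    · intro y hy
      have hyz := hy (z a.i (a.f q₁)) (Or.inl ⟨hz, le_rfl⟩)
      have hyv := hy (v a.j (a.g q₂)) (Or.inr (Or.inr ⟨hv, le_rfl⟩))
      have hlow : y ≤ z a.i (a.f q₁) → y ∈ M₁ := by
        intro h
        refine mem_of_comparable hM₁ fun w hw => ?_
        rcases hM₁.1.total hw hz with h1 | h1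
        · exact hy w (Or.inl ⟨hw, h1⟩)
        · exact Or.inl (h.trans h1)
      have hhigh : v a.j (a.g q₂) ≤ y → y ∈ M₂ := by
        intro h
        refine mem_of_comparable hM₂ fun w hw => ?_
        rcases hM₂.1.total hv hw with h1 | h1
        · exact hy w (Or.inr (Or.inr ⟨hw, h1⟩))
        · exact Or.inr (h1.trans h)
      have hIic : LowerSet.Iic q₁ ≤ LowerSet.Iio q₂ := by
        intro r hr
        simp only [LowerSet.coe_Iic, Set.mem_Iic, LowerSet.coe_Iio, Set.mem_Iio] at hr ⊢
        exact lt_of_le_of_lt hr hq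
      have hyc := hy (c a (LowerSet.Iic q₁)) (Or.inr (Or.inl ⟨_, le_rfl, hIic, rfl⟩))
      have hyd := hy (c a (LowerSet.Iio q₂)) (Or.inr (Or.inl ⟨_, hIic, le_rfl, rfl⟩))
      rcases hyz with h | h
      · exact Or.inl ⟨hlow h, h⟩
      rcases hyv with h' | h'
      swap
      · exact Or.inr (Or.inr ⟨hhigh h', h'⟩)
      cases y with
      | bot => exact Or.inl ⟨hlow (bot_le' _), bot_le' _⟩
      | top => exact Or.inr (Or.inr ⟨hhigh (le_top' _), le_top' _⟩)
      | z k r =>
        rcases z_le_z.1 h with ⟨h3, h4⟩ | ⟨h3, -⟩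
        · rw [← h3, ← h4] at *
          exact Or.inl ⟨hz, le_rfl⟩
        · rcases hyc with h5 | h5
          · rcases z_le_c.1 h5 with h6 | ⟨h6, -⟩ <;> omega
          · exact absurd h5 not_c_le_z
      | v k r =>
        rcases v_le_v.1 h' with ⟨h3, h4⟩ | ⟨h3, -⟩
        · rw [h3, h4] at *
          exact Or.inr (Or.inr ⟨hv, le_rfl⟩)
        · rcases hyd with h5 | h5
          · exact absurd h5 not_v_le_c
          · rcases c_le_v.1 h5 with h6 | ⟨h6, -⟩ <;> omega
      | c b x =>
        have hba : b = a := by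
          rcases hyc with h5 | h5
          · exact (c_le_c.1 h5).1
          · exact (c_le_c.1 h5).1.symm
        subst hba
        refine Or.inr (Or.inl ⟨x, ?_, ?_, rfl⟩)
        · rcases z_le_c.1 h with h5 | ⟨-, q, hq1, hq2⟩
          · exact absurd h5 (lt_irrefl _)
          · have : q = q₁ := b.f.injective hq2
            subst this
            intro r hr
            exact x.lower (by simpa using hr) hq1
        · rcases c_le_v.1 h' with h5 | ⟨-, q, hq1, hq2⟩
          · exact absurd h5 (lt_irrefl _)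
          · have : q = q₂ := b.g.injective hq2
            subst this
            intro r hr
            simp only [LowerSet.coe_Iio, Set.mem_Iio]
            by_contra hlt
            exact hq1 (x.lower (not_lt.1 hlt) hr)
  obtain ⟨w, hwK, hw⟩ := hK _ hmax
  rcases hw with ⟨hw, hw1⟩ | ⟨x, hx1, hx2, rfl⟩ | ⟨hw, hw1⟩
  · exact absurd hwK (hI w hw hw1)
  · exact ⟨x, hx1, hx2, hwK⟩
  · exact absurd hwK (hF w hw hw1)

/-- A maximal chain through a point of a middle chain contains, next to the point, a whole
segment between two rational cuts. -/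
theorem segment_in_chain {M : Set Pt} (hM : IsMaxChain (· ≤ ·) M) {a : Ix} {x : LowerSet ℚ}
    (hx : c a x ∈ M) : ∃ q₁ q₂ : ℚ, q₁ < q₂ ∧
      ∀ y : LowerSet ℚ, LowerSet.Iic q₁ ≤ y → y ≤ LowerSet.Iio q₂ → c a y ∈ M ∧ y ≠ x := by
  classical
  -- lower part
  have hlow : (∀ y : LowerSet ℚ, y ≤ x → c a y ∈ M) ∨
      ∃ q₀ ∈ x, ∀ y : LowerSet ℚ, q₀ ∈ y → y ≤ x → c a y ∈ M := by
    by_cases hex : ∃ e, z a.i e ∈ M
    · obtain ⟨e, he⟩ := hex
      have h1 : z a.i e ≤ c a x := (hM.1.total he hx).resolve_right not_c_le_z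
      rcases z_le_c.1 h1 with h2 | ⟨-, q₀, hq₀, hq₀'⟩
      · exact absurd h2 (lt_irrefl _)
      · right
        refine ⟨q₀, hq₀, fun y hy hyx => mem_of_comparable hM fun w hw => ?_⟩
        cases w with
        | bot => exact Or.inr (bot_le' _)
        | top => exact Or.inl (le_top' _)
        | v k r =>
          have h3 : c a x ≤ v k r := (hM.1.total hx hw).resolve_right not_v_le_c
          exact Or.inl (_root_.le_trans (c_le_c.2 ⟨rfl, hyx⟩) h3)
        | c b w =>
          have hba : b = a := by
            rcases hM.1.total hw hx with h5 | h5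
            · exact (c_le_c.1 h5).1
            · exact (c_le_c.1 h5).1.symm
          subst hba
          rcases le_total y w with h | h
          · exact Or.inl (c_le_c.2 ⟨rfl, h⟩)
          · exact Or.inr (c_le_c.2 ⟨rfl, h⟩)
        | z k r =>
          right
          have h3 : z k r ≤ c a x := (hM.1.total hw hx).resolve_right not_c_le_z
          rcases z_le_c.1 h3 with h4 | ⟨h4, q, hq, hq'⟩
          · exact z_le_c.2 (Or.inl h4)
          · refine z_le_c.2 (Or.inr ⟨h4, q₀, hy, ?_⟩)
            rw [hq₀']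
            rcases hM.1.total he hw with h5 | h5
            · have := z_le_z.1 h5; omega
            · have := z_le_z.1 h5; omega
    · left
      intro y hyx
      refine mem_of_comparable hM fun w hw => ?_
      cases w with
      | bot => exact Or.inr (bot_le' _)
      | top => exact Or.inl (le_top' _)
      | v k r =>
        have h3 : c a x ≤ v k r := (hM.1.total hx hw).resolve_right not_v_le_c
        exact Or.inl (_root_.le_trans (c_le_c.2 ⟨rfl, hyx⟩) h3)
      | c b w =>
        have hba : b = a := by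
          rcases hM.1.total hw hx with h5 | h5
          · exact (c_le_c.1 h5).1
          · exact (c_le_c.1 h5).1.symm
        subst hba
        rcases le_total y w with h | h
        · exact Or.inl (c_le_c.2 ⟨rfl, h⟩)
        · exact Or.inr (c_le_c.2 ⟨rfl, h⟩)
      | z k r =>
        right
        have h3 : z k r ≤ c a x := (hM.1.total hw hx).resolve_right not_c_le_z
        rcases z_le_c.1 h3 with h4 | ⟨h4, q, hq, hq'⟩
        · exact z_le_c.2 (Or.inl h4)
        · exact absurd ⟨r, h4 ▸ hw⟩ hex
  -- upper part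
  have hhigh : (∀ y : LowerSet ℚ, x ≤ y → c a y ∈ M) ∨
      ∃ r₀, r₀ ∉ x ∧ ∀ y : LowerSet ℚ, r₀ ∉ y → x ≤ y → c a y ∈ M := by
    by_cases hex : ∃ e, v a.j e ∈ M
    · obtain ⟨e, he⟩ := hex
      have h1 : c a x ≤ v a.j e := (hM.1.total hx he).resolve_right not_v_le_c
      rcases c_le_v.1 h1 with h2 | ⟨-, q₀, hq₀, hq₀'⟩
      · exact absurd h2 (lt_irrefl _)
      · right
        refine ⟨q₀, hq₀, fun y hy hyx => mem_of_comparable hM fun w hw => ?_⟩
        cases w with
        | bot => exact Or.inr (bot_le' _)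
        | top => exact Or.inl (le_top' _)
        | z k r =>
          have h3 : z k r ≤ c a x := (hM.1.total hw hx).resolve_right not_c_le_z
          exact Or.inr (h3.trans (c_le_c.2 ⟨rfl, hyx⟩))
        | c b w =>
          have hba : b = a := by
            rcases hM.1.total hw hx with h5 | h5
            · exact (c_le_c.1 h5).1
            · exact (c_le_c.1 h5).1.symm
          subst hba
          rcases le_total y w with h | h
          · exact Or.inl (c_le_c.2 ⟨rfl, h⟩)
          · exact Or.inr (c_le_c.2 ⟨rfl, h⟩)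
        | v k r =>
          left
          have h3 : c a x ≤ v k r := (hM.1.total hx hw).resolve_right not_v_le_c
          rcases c_le_v.1 h3 with h4 | ⟨h4, q, hq, hq'⟩
          · exact c_le_v.2 (Or.inl h4)
          · refine c_le_v.2 (Or.inr ⟨h4, q₀, hy, ?_⟩)
            rw [hq₀']
            rcases hM.1.total he hw with h5 | h5
            · have := v_le_v.1 h5; omega
            · have := v_le_v.1 h5; omega
    · left
      intro y hyx
      refine mem_of_comparable hM fun w hw => ?_
      cases w with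
      | bot => exact Or.inr (bot_le' _)
      | top => exact Or.inl (le_top' _)
      | z k r =>
        have h3 : z k r ≤ c a x := (hM.1.total hw hx).resolve_right not_c_le_z
        exact Or.inr (h3.trans (c_le_c.2 ⟨rfl, hyx⟩))
      | c b w =>
        have hba : b = a := by
          rcases hM.1.total hw hx with h5 | h5
          · exact (c_le_c.1 h5).1
          · exact (c_le_c.1 h5).1.symm
        subst hba
        rcases le_total y w with h | h
        · exact Or.inl (c_le_c.2 ⟨rfl, h⟩)
        · exact Or.inr (c_le_c.2 ⟨rfl, h⟩)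
      | v k r =>
        left
        have h3 : c a x ≤ v k r := (hM.1.total hx hw).resolve_right not_v_le_c
        rcases c_le_v.1 h3 with h4 | ⟨h4, q, hq, hq'⟩
        · exact c_le_v.2 (Or.inl h4)
        · exact absurd ⟨r, h4 ▸ hw⟩ hex
  -- choose three rationals between
  have hp : ∃ p₁ p₂ p₃ : ℚ, p₁ < p₂ ∧ p₂ < p₃ ∧
      (∀ y : LowerSet ℚ, p₁ ∈ y → y ≤ x → c a y ∈ M) ∧
      (∀ y : LowerSet ℚ, p₃ ∉ y → x ≤ y → c a y ∈ M) := by
    rcases hlow with hlow | ⟨q₀, hq₀, hlow⟩
    · rcases hhigh with hhigh | ⟨r₀, hr₀, hhigh⟩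
      · exact ⟨0, 1, 2, by norm_num, by norm_num, fun y _ h => hlow y h, fun y _ h => hhigh y h⟩
      · refine ⟨r₀ - 2, r₀ - 1, r₀, by linarith, by linarith, fun y _ h => hlow y h,
          fun y h h' => hhigh y h h'⟩
    · rcases hhigh with hhigh | ⟨r₀, hr₀, hhigh⟩
      · refine ⟨q₀, q₀ + 1, q₀ + 2, by linarith, by linarith, fun y h h' => hlow y h h',
          fun y _ h => hhigh y h⟩
      · have hlt : q₀ < r₀ := by
          by_contra h
          exact hr₀ (x.lower (not_lt.1 h) hq₀)
        refine ⟨q₀, (q₀ + r₀) / 2, r₀, by linarith, by linarith, fun y h h' => hlow y h h',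
          fun y h h' => hhigh y h h'⟩
  obtain ⟨p₁, p₂, p₃, h12, h23, hL, hH⟩ := hp
  by_cases hp2 : p₂ ∈ x
  · refine ⟨p₁, p₂, h12, fun y hy1 hy2 => ?_⟩
    have hyx : y ≤ x := by
      intro r hr
      have h1 := hy2 hr
      simp only [LowerSet.coe_Iio, Set.mem_Iio] at h1
      exact x.lower h1.le hp2
    refine ⟨hL y (hy1 (by simp)) hyx, ?_⟩
    rintro rfl
    have h1 := hy2 hp2
    simp at h1
  · refine ⟨p₂, p₃, h23, fun y hy1 hy2 => ?_⟩
    have hyx : x ≤ y := by
      intro r hr
      refine hy1 ?_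
      simp only [LowerSet.coe_Iic, Set.mem_Iic]
      by_contra hlt
      exact hp2 (x.lower (not_le.1 hlt).le hr)
    refine ⟨hH y (fun h => ?_) hyx, ?_⟩
    · have h1 := hy2 h
      simp at h1
    · rintro rfl
      exact hp2 (hy1 (by simp))

/-- There is no minimal cutset avoiding both `bot` and `top`. -/
theorem no_nontrivial {K : Set Pt} (hK : IsMinimalCutset K) (hb : bot ∉ K) (ht : top ∉ K) :
    False := by
  have hK' : ∀ x ∈ K, ∃ M, IsMaxChain (· ≤ ·) M ∧ x ∈ M ∧ ∀ w ∈ M, w ∈ K → w = x := by
    intro x hx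
    have h1 := hK.2 x hx
    unfold IsCutset at h1
    push Not at h1
    obtain ⟨M, hM, hM'⟩ := h1
    have h2 : ∀ w ∈ M, w ∈ K → w = x := by
      intro w hw hwK
      by_contra hne
      have : w ∈ (K \ {x}) ∩ M := ⟨⟨hwK, hne⟩, hw⟩
      rw [hM'] at this
      exact this
    obtain ⟨w, hwK, hwM⟩ := hK.1 M hM
    have h3 := h2 w hwM hwK
    exact ⟨M, hM, h3 ▸ hwM, h2⟩
  obtain ⟨j, hj⟩ := exists_level_F hK' ht
  obtain ⟨i, hi⟩ := exists_level_I hK' hb
  -- embeddings of `ℚ` into the two infinite sets
  have emb : ∀ S : Set ℕ, S.Infinite → ∃ f : ℚ ↪ ℕ, ∀ q, f q ∈ S := by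
    intro S hS
    have : Infinite S := hS.to_subtype
    let e : ℕ ↪ S := Infinite.natEmbedding S
    refine ⟨((Encodable.encode' ℚ).trans e).trans (Function.Embedding.subtype _), fun q => ?_⟩
    exact (e (Encodable.encode q)).2
  obtain ⟨f, hf⟩ := emb _ hi
  obtain ⟨g, hg⟩ := emb _ hj
  let a : Ix := ⟨i, f, j, g⟩
  obtain ⟨x, -, -, hxK⟩ := segment_hit (a := a) hK.1 (show (0 : ℚ) < 1 by norm_num)
    (hf 0) (hg 1)
  obtain ⟨M, hM, hxM, huniq⟩ := hK' _ hxK
  obtain ⟨q₁, q₂, hq, hseg⟩ := segment_in_chain hM hxM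
  obtain ⟨y, hy1, hy2, hyK⟩ := segment_hit (a := a) hK.1 hq (hf q₁) (hg q₂)
  obtain ⟨hyM, hyx⟩ := hseg y hy1 hy2
  have h1 := huniq _ hyM hyK
  have h2 := (c_le_c.1 (le_of_eq h1)).2
  have h3 := (c_le_c.1 (le_of_eq h1.symm)).2
  exact hyx (_root_.le_antisymm h2 h3)

theorem minimal_singleton {K : Set Pt} (hK : IsMinimalCutset K) : K = {bot} ∨ K = {top} := by
  have key : ∀ p : Pt, (∀ M, IsMaxChain (· ≤ ·) M → p ∈ M) → p ∈ K → K = {p} := by
    intro p hp hpK
    refine Set.Subset.antisymm (fun x hx => ?_) (Set.singleton_subset_iff.2 hpK)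
    by_contra hne
    refine hK.2 x hx fun M hM => ⟨p, ⟨hpK, fun h => hne ?_⟩, hp M hM⟩
    exact h.symm
  by_cases hb : bot ∈ K
  · exact Or.inl (key bot (fun M hM => mem_of_comparable hM fun w _ => Or.inl (bot_le' w)) hb)
  · by_cases ht : top ∈ K
    · exact Or.inr (key top (fun M hM => mem_of_comparable hM fun w _ => Or.inr (le_top' w)) ht)
    · exact (no_nontrivial hK hb ht).elim

theorem antichain {K : Set Pt} (hK : IsMinimalCutset K) : IsAntichain (· ≤ ·) K := by
  rcases minimal_singleton hK with rfl | rfl <;> exact IsAntichain.singleton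

/-! ### The poset contains an N -/

theorem containsN : ContainsN Pt := by
  let f : ℚ ↪ ℕ := Encodable.encode' ℚ
  let g : ℚ ↪ ℕ := f.trans ⟨Nat.succ, Nat.succ_injective⟩
  let a₁ : Ix := ⟨0, f, 0, f⟩
  let a₂ : Ix := ⟨0, f, 0, g⟩
  have hne : a₁ ≠ a₂ := by
    intro h
    have h1 : f = g := congrArg Ix.g h
    have h2 : f 0 = g 0 := by rw [← h1]
    exact absurd h2.symm (Nat.succ_ne_self _)
  refine ⟨c a₁ ⊥, z 0 (f 0), c a₁ (LowerSet.Iic 0), c a₂ (LowerSet.Iic 0), ?_, ⟨?_, ?_⟩, ?_,
    ⟨?_, ?_⟩, ⟨?_, ?_⟩, ⟨?_, ?_⟩⟩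
  · refine c_lt_c.2 ⟨rfl, lt_of_le_not_ge bot_le fun h => ?_⟩
    have h1 : (0 : ℚ) ∈ (⊥ : LowerSet ℚ) := h (LowerSet.mem_Iic_iff.2 le_rfl)
    exact LowerSet.notMem_bot h1
  · exact z_lt_c.2 (z_le_c.2 (Or.inr ⟨rfl, 0, LowerSet.mem_Iic_iff.2 le_rfl, rfl⟩))
  · intro w h1 h2
    cases w with
    | bot => exact absurd (le_of_lt h1) not_z_le_bot
    | top => exact absurd (le_of_lt h2) not_top_le_c
    | v k r => exact absurd (le_of_lt h2) not_v_le_c
    | z k r =>
      rcases z_le_z.1 (le_of_lt h1) with ⟨h3, h4⟩ | ⟨h3, -⟩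
      · rw [← h3, ← h4] at h1; exact lt_irrefl _ h1
      · omega
    | c b x =>
      obtain ⟨rfl, h3⟩ := c_lt_c.1 h2
      rcases z_le_c.1 (le_of_lt h1) with h4 | ⟨-, q, hq, hq'⟩
      · exact absurd h4 (lt_irrefl _)
      · have : q = 0 := f.injective hq'
        subst this
        refine absurd h3 (not_lt_of_ge ?_)
        intro r hr
        exact x.lower (LowerSet.mem_Iic_iff.1 hr) hq
  · exact z_lt_c.2 (z_le_c.2 (Or.inr ⟨rfl, 0, LowerSet.mem_Iic_iff.2 le_rfl, rfl⟩))
  · exact not_c_le_z
  · intro h
    rcases z_le_c.1 h with h4 | ⟨-, q, hq, hq'⟩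
    · exact absurd h4 (lt_irrefl _)
    · simp at hq
  · exact fun h => hne (c_le_c.1 h).1
  · exact fun h => hne (c_le_c.1 h).1.symm
  · exact fun h => hne (c_le_c.1 h).1
  · exact fun h => hne (c_le_c.1 h).1.symm

end Pt

/-- There is a regular ordered set in which every minimal cutset is an antichain but which
contains an N.  (In the example below the only minimal cutsets are the singletons of the least
and of the greatest element, see `Pt.minimal_singleton`.) -/
theorem result : ∃ (P : Type) (_ : PartialOrder P),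
    IsRegularOrder P ∧ (∀ K : Set P, IsMinimalCutset K → IsAntichain (· ≤ ·) K) ∧
      ContainsN P :=
  ⟨Pt, inferInstance, Pt.regular, fun _ hK => Pt.antichain hK, Pt.containsN⟩

end Pool.Agent.Results.MP_3b1797_co.HiggsCounterexample
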